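import Mathlib
import Pool.Agent.Lib.helper18.DigLap2

set_option autoImplicit false

open Classical Matrix Finset

namespace Pool.Agent.Results.MP_436edf_co.One

/-- Laplacian `D - A` of the digraph with arc relation `a` (out-degrees on the diagonal). -/
noncomputable def lap {n : ℕ} (a : Fin n → Fin n → Prop) : Matrix (Fin n) (Fin n) ℝ :=
  Matrix.of fun i j => (if i = j then (({k | a i k} : Set (Fin n)).ncard : ℝ) else 0) -
    (if a i j then 1 else 0)

/-- Values `xᵀ L x` over real unit vectors `x` orthogonal to the all-ones vector. -/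
def vals {n : ℕ} (L : Matrix (Fin n) (Fin n) ℝ) : Set ℝ :=
  {t | ∃ x : Fin n → ℝ, ∑ i, x i = 0 ∧ x ⬝ᵥ x = 1 ∧ x ⬝ᵥ (L *ᵥ x) = t}

/-- Laplacian spread `β - α`. -/
noncomputable def sp {n : ℕ} (a : Fin n → Fin n → Prop) : ℝ :=
  sSup (vals (lap a)) - sInf (vals (lap a))

lemma sp_eq {n : ℕ} (a : Fin n → Fin n → Prop) :
    sp a = sSup (H18Dig.rset (H18Dig.lap a)) - sInf (H18Dig.rset (H18Dig.lap a)) := by
  have : lap a = H18Dig.lap a := by
    ext i j; simp only [lap, H18Dig.lap, of_apply]; congr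
  unfold sp; rw [this]; rfl

/-- Every vertex has out-degree and in-degree `d`. -/
def Regular {n : ℕ} (a : Fin n → Fin n → Prop) (d : ℕ) : Prop :=
  ∀ i, ({k | a i k} : Set (Fin n)).ncard = d ∧ ({k | a k i} : Set (Fin n)).ncard = d

theorem result : ∀ (n : ℕ) (a : Fin n → Fin n → Prop), 3 ≤ n → (∀ i, ¬ a i i) →
    (∀ i, ({k | a i k} : Set (Fin n)).ncard = ({k | a k i} : Set (Fin n)).ncard) →
    sp a = 1 → Even n ∧ 4 ≤ n ∧
      (Regular a ((n - 2) / 2) ∨ Regular (fun i j => i ≠ j ∧ ¬ a i j) ((n - 2) / 2)) := by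
  intro n a hn ha hb h1
  rw [sp_eq] at h1
  obtain ⟨d, hd, h⟩ := H18Dig.one a ha hb ⟨0, by omega⟩ h1
  rw [Fintype.card_fin] at h
  refine ⟨by rcases h with h | h <;> [exact ⟨d, by omega⟩; exact ⟨d + 1, by omega⟩], by omega, ?_⟩
  rcases h with h | h
  · refine Or.inr fun i => ⟨?_, ?_⟩
    · have := H18Dig.compl_card (a i) i (ha i)
      rw [hd, Fintype.card_fin] at this
      beta_reduce
      omega
    · have := H18Dig.compl_card (fun k => a k i) i (ha i)
      rw [← hb, hd, Fintype.card_fin] at this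
      simp only [ne_comm (a := i)] at this
      beta_reduce
      omega
  · exact Or.inl fun i => ⟨by rw [hd]; omega, by rw [← hb, hd]; omega⟩

end Pool.Agent.Results.MP_436edf_co.One
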